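import Mathlib

set_option autoImplicit false

namespace Pool.Agent.Results.MP_544047_al.Termination

/-- The free group on two generators. -/
abbrev F2 : Type := FreeGroup (Fin 2)

/-- The four letters `a, b, a⁻¹, b⁻¹`. -/
def Xi : Set F2 :=
  {FreeGroup.of 0, FreeGroup.of 1, (FreeGroup.of 0)⁻¹, (FreeGroup.of 1)⁻¹}

/-- All cosets `h x H` with `h` a letter and `x H` in the given set. -/
def nbr (H : Subgroup F2) (T : Set (F2 ⧸ H)) : Set (F2 ⧸ H) :=
  {q | ∃ h ∈ Xi, ∃ p ∈ T, h • p = q}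

/-- The sets `C_{-1}, C_0, C_1, ...` of the procedure, indexed with a shift by one:
`shifted H y n` is `C_{n-1}`. -/
def shifted (H : Subgroup F2) (y : F2) : ℕ → Set (F2 ⧸ H)
  | 0 => ∅
  | 1 => {(y : F2 ⧸ H)}
  | (n + 2) => nbr H (shifted H y (n + 1)) \ shifted H y n

/-- The set `C_i` of the procedure, for `i ≥ 0`. -/
def C (H : Subgroup F2) (y : F2) (i : ℕ) : Set (F2 ⧸ H) := shifted H y (i + 1)

/-- Endpoints of walks of length exactly `n` from `yH`. -/
def W (H : Subgroup F2) (y : F2) : ℕ → Set (F2 ⧸ H)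
  | 0 => {(y : F2 ⧸ H)}
  | (n + 1) => nbr H (W H y n)

/-- New endpoints at length `n`. -/
def D (H : Subgroup F2) (y : F2) : ℕ → Set (F2 ⧸ H)
  | 0 => W H y 0
  | 1 => W H y 1
  | (n + 2) => W H y (n + 2) \ W H y n

lemma Xi_inv {h : F2} (hh : h ∈ Xi) : h⁻¹ ∈ Xi := by
  simp only [Xi, Set.mem_insert_iff, Set.mem_singleton_iff] at hh ⊢
  rcases hh with rfl | rfl | rfl | rfl <;> simp

lemma of_zero_mem : (FreeGroup.of 0 : F2) ∈ Xi := by simp [Xi]

lemma nbr_symm {H : Subgroup F2} {T : Set (F2 ⧸ H)} {h : F2} {p : F2 ⧸ H} (hh : h ∈ Xi)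
    (hq : h • p ∈ T) : p ∈ nbr H T :=
  ⟨h⁻¹, Xi_inv hh, h • p, hq, by simp⟩

lemma nbr_empty (H : Subgroup F2) : nbr H ∅ = ∅ := by
  ext q; simp [nbr]

lemma W_mono (H : Subgroup F2) (y : F2) (n : ℕ) : W H y n ⊆ W H y (n + 2) := by
  intro q hq
  refine ⟨(FreeGroup.of 0)⁻¹, Xi_inv of_zero_mem, (FreeGroup.of 0 : F2) • q, ?_, by simp⟩
  exact ⟨FreeGroup.of 0, of_zero_mem, q, hq, rfl⟩

lemma D_step (H : Subgroup F2) (y : F2) (n : ℕ) :
    nbr H (D H y (n + 1)) \ D H y n = D H y (n + 2) := by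
  ext q
  constructor
  · rintro ⟨⟨h, hh, p, hp, rfl⟩, hn⟩
    have hpW : p ∈ W H y (n + 1) := by
      cases n with
      | zero => exact hp
      | succ m => exact hp.1
    refine ⟨⟨h, hh, p, hpW, rfl⟩, fun hW => ?_⟩
    cases n with
    | zero => exact hn hW
    | succ m =>
      cases m with
      | zero => exact hn hW
      | succ k =>
        have h1 : h • p ∈ W H y k := by
          by_contra hk
          exact hn ⟨hW, hk⟩
        exact hp.2 (nbr_symm hh h1)
  · rintro ⟨⟨h, hh, p, hp, rfl⟩, hn⟩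
    refine ⟨⟨h, hh, p, ?_, rfl⟩, fun hD => ?_⟩
    · cases n with
      | zero => exact hp
      | succ m => exact ⟨hp, fun hm => hn ⟨h, hh, p, hm, rfl⟩⟩
    · apply hn
      cases n with
      | zero => exact hD
      | succ m =>
        cases m with
        | zero => exact hD
        | succ k => exact hD.1

lemma shifted_eq (H : Subgroup F2) (y : F2) (n : ℕ) :
    shifted H y (n + 1) = D H y n ∧ shifted H y (n + 2) = D H y (n + 1) := by
  induction n with
  | zero =>
    refine ⟨rfl, ?_⟩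
    show nbr H (shifted H y 1) \ shifted H y 0 = W H y 1
    simp [shifted, W]
  | succ n ih =>
    refine ⟨ih.2, ?_⟩
    show nbr H (shifted H y (n + 2)) \ shifted H y (n + 1) = D H y (n + 2)
    rw [ih.1, ih.2, D_step]

lemma C_eq (H : Subgroup F2) (y : F2) (n : ℕ) : C H y n = D H y n := (shifted_eq H y n).1

lemma C_succ_empty (H : Subgroup F2) (y : F2) (n : ℕ) (h : C H y n = ∅) :
    C H y (n + 1) = ∅ := by
  show nbr H (C H y n) \ _ = ∅
  rw [h, nbr_empty, Set.empty_sdiff]

lemma C_empty_mono (H : Subgroup F2) (y : F2) (n m : ℕ) (hnm : n ≤ m) (h : C H y n = ∅) :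
    C H y m = ∅ := by
  induction m, hnm using Nat.le_induction with
  | base => exact h
  | succ k _ ih => exact C_succ_empty H y k ih

lemma card_W (H : Subgroup F2) [H.FiniteIndex] (y : F2) (k : ℕ)
    (h : (C H y (2 * k)).Nonempty) : k + 1 ≤ (W H y (2 * k)).ncard := by
  induction k with
  | zero => simp [W]
  | succ k ih =>
    have h0 : (C H y (2 * k)).Nonempty := by
      by_contra hne
      rw [Set.not_nonempty_iff_eq_empty] at hne
      have := C_empty_mono H y (2 * k) (2 * (k + 1)) (by omega) hne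
      rw [this] at h
      exact Set.not_nonempty_empty h
    have h1 := ih h0
    have h2 : W H y (2 * k) ⊂ W H y (2 * k + 2) := by
      refine ⟨W_mono H y (2 * k), fun hsub => ?_⟩
      obtain ⟨q, hq⟩ := h
      rw [C_eq] at hq
      exact hq.2 (hsub hq.1)
    have h3 : (W H y (2 * k)).ncard < (W H y (2 * k + 2)).ncard :=
      Set.ncard_lt_ncard h2 (Set.toFinite _)
    have h4 : 2 * (k + 1) = 2 * k + 2 := by ring
    rw [h4]
    omega

/-- For every finite-index subgroup `H` of `F₂` and every `y`, the procedure terminates: there is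
`i` with `1 ≤ i ≤ 2 [F₂ : H]` such that `C_j` is empty for all `j ≥ i`. -/
theorem result (H : Subgroup (FreeGroup (Fin 2))) [H.FiniteIndex] (y : FreeGroup (Fin 2)) :
    ∃ i : ℕ, 1 ≤ i ∧ i ≤ 2 * H.index ∧ ∀ j : ℕ, i ≤ j → C H y j = ∅ := by
  have hpos : 0 < H.index := Nat.pos_of_ne_zero Subgroup.FiniteIndex.index_ne_zero
  refine ⟨2 * H.index, by omega, le_rfl, fun j hj => ?_⟩
  refine C_empty_mono H y _ j hj ?_
  by_contra hne
  have h1 := card_W H y H.index (Set.nonempty_iff_ne_empty.mpr hne)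
  have h2 : (W H y (2 * H.index)).ncard ≤ Nat.card (F2 ⧸ H) := by
    rw [← Set.ncard_univ]
    exact Set.ncard_le_ncard (Set.subset_univ _) (Set.toFinite _)
  have h3 : Nat.card (F2 ⧸ H) = H.index := rfl
  omega

end Pool.Agent.Results.MP_544047_al.Termination
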